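import Pool.Agent.W622.ETG.Lin

set_option autoImplicit false

/-!
# ELG, part B1A: a circuit of a bad block and at least three good blocks of dimension one
-/

namespace Pool.Agent.W392.ELG

open Pool.Agent.W622.ETG Module

section
variable {V : Type} [AddCommGroup V] [Module (ZMod 2) V]

theorem b1a_indep_insert {u : Set (DSub V)}
    {X : DSub V} (hu : sSupIndep u) (hX : Disjoint X (sSup u)) : sSupIndep (insert X u) := by
  intro a ha
  by_cases hXu : X ∈ u
  · rw [Set.insert_eq_of_mem hXu] at ha ⊢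
    exact hu ha
  rcases ha with rfl | ha
  · rw [Set.insert_sdiff_self_of_notMem hXu]
    exact hX
  · have hne : a ≠ X := fun h => hXu (h ▸ ha)
    have h1 : insert X u \ {a} = insert X (u \ {a}) := by
      rw [Set.insert_sdiff_of_notMem]
      intro h
      exact hne (Set.mem_singleton_iff.mp h).symm
    rw [h1, sSup_insert]
    have h2 : Disjoint a (sSup (u \ {a})) := hu ha
    rw [Submodule.disjoint_def] at hX h2 ⊢
    intro f hfa hf
    obtain ⟨x, hx, y, hy, rfl⟩ := Submodule.mem_sup.mp hf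
    have hle : sSup (u \ {a}) ≤ sSup u := sSup_le_sSup fun z hz => hz.1
    have hyu : y ∈ sSup u := hle hy
    have hau : x + y ∈ sSup u := (le_sSup ha) hfa
    have hxu : x ∈ sSup u := by
      have := Submodule.add_mem _ hau hyu
      rwa [add_cancel'] at this
    have hx0 := hX x hx hxu
    subst hx0
    rw [zero_add] at hfa ⊢
    exact h2 y hfa hy

theorem b1a_gen {X : DSub V} (h : finrank (ZMod 2) X = 1) :
    ∃ s : Dl V, s ≠ 0 ∧ X = Submodule.span (ZMod 2) {s} := by
  obtain ⟨v, hv, hall⟩ := finrank_eq_one_iff'.mp h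
  refine ⟨v.1, fun h0 => hv (Subtype.ext h0), ?_⟩
  apply le_antisymm
  · intro x hx
    obtain ⟨c, hc⟩ := hall ⟨x, hx⟩
    rw [Submodule.mem_span_singleton]
    exact ⟨c, congrArg Subtype.val hc⟩
  · rw [Submodule.span_singleton_le_iff_mem]
    exact v.2

theorem b1a_mem_sSup (N : Finset (DSub V)) (s : DSub V → Dl V)
    (hs : ∀ X ∈ N, X = Submodule.span (ZMod 2) {s X}) (f : Dl V)
    (hf : f ∈ sSup (N : Set (DSub V))) : ∃ N' : Finset (DSub V), N' ⊆ N ∧ f = ∑ X ∈ N', s X := by
  classical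
  induction N using Finset.induction_on generalizing f with
  | empty =>
    refine ⟨∅, subset_rfl, ?_⟩
    rw [Finset.coe_empty, sSup_empty, Submodule.mem_bot] at hf
    rw [hf, Finset.sum_empty]
  | insert X N hXN ih =>
    rw [Finset.coe_insert, sSup_insert] at hf
    obtain ⟨x, hx, y, hy, rfl⟩ := Submodule.mem_sup.mp hf
    obtain ⟨N', hN', hy'⟩ := ih (fun Y hY => hs Y (Finset.mem_insert_of_mem hY)) y hy
    rw [hs X (Finset.mem_insert_self X N)] at hx
    rcases span_one_mem.mp hx with h0 | h1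
    · exact ⟨N', hN'.trans (Finset.subset_insert X N), by rw [h0, zero_add, hy']⟩
    · refine ⟨insert X N', Finset.insert_subset_insert X hN', ?_⟩
      rw [Finset.sum_insert (fun h => hXN (hN' h)), ← h1, hy']

theorem b1a_disj {F : DSub V} {N : Set (DSub V)} (hF : F ∉ N)
    (h : sSupIndep (insert F N)) : Disjoint F (sSup N) := by
  have h1 := h (Set.mem_insert F N)
  rwa [Set.insert_sdiff_self_of_notMem hF] at h1

theorem b1a_mem_of_sub {N N' : Finset (DSub V)} (hN' : N' ⊆ N) (s : DSub V → Dl V)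
    (hs : ∀ X ∈ N, X = Submodule.span (ZMod 2) {s X}) :
    ∑ X ∈ N', s X ∈ sSup (N' : Set (DSub V)) := by
  apply Submodule.sum_mem
  intro X hX
  have h1 : X ≤ sSup (N' : Set (DSub V)) := le_sSup hX
  apply h1
  have h2 := hs X (hN' hX)
  have h3 : s X ∈ Submodule.span (ZMod 2) {s X} := Submodule.mem_span_singleton_self _
  rw [← h2] at h3
  exact h3

/-- in a circuit `{F} ∪ N` the sum of the generators of `N` is in `F` -/
theorem b1a_circ {F : DSub V} (N : Finset (DSub V)) (s : DSub V → Dl V) (hF : F ∉ N)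
    (hs : ∀ X ∈ N, X = Submodule.span (ZMod 2) {s X})
    (hdep : ¬ sSupIndep (insert F (N : Set (DSub V))))
    (hmin : ∀ D' : Set (DSub V), D' ⊆ insert F (N : Set (DSub V)) →
      D' ≠ insert F (N : Set (DSub V)) → sSupIndep D') :
    ∑ X ∈ N, s X ∈ F := by
  have hNind : sSupIndep (N : Set (DSub V)) := by
    apply hmin _ (Set.subset_insert F _)
    intro h
    have h1 : F ∈ (N : Set (DSub V)) := by
      rw [h]; exact Set.mem_insert F _
    exact hF h1
  have hnd : ¬ Disjoint F (sSup (N : Set (DSub V))) := fun h => hdep (b1a_indep_insert hNind h)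
  rw [Submodule.disjoint_def] at hnd
  push Not at hnd
  obtain ⟨f, hfF, hfN, hf0⟩ := hnd
  obtain ⟨N', hN', hfN'⟩ := b1a_mem_sSup N s hs f hfN
  by_cases hEq : N' = N
  · rw [hEq] at hfN'
    rw [← hfN']
    exact hfF
  · exfalso
    have hind : sSupIndep (insert F (N' : Set (DSub V))) := by
      apply hmin _ (Set.insert_subset_insert hN')
      intro h
      apply hEq
      apply Finset.Subset.antisymm hN'
      intro X hX
      have h1 : X ∈ insert F (N' : Set (DSub V)) := by
        rw [h]; exact Set.mem_insert_of_mem F hX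
      rcases h1 with h1 | h1
      · exact absurd (h1 ▸ hX) hF
      · exact h1
    have hF' : F ∉ (N' : Set (DSub V)) := fun h => hF (hN' h)
    have hd := b1a_disj hF' hind
    rw [Submodule.disjoint_def] at hd
    apply hf0
    apply hd f hfF
    rw [hfN']
    exact b1a_mem_of_sub hN' s hs

theorem b1a_pair {F : DSub V} (N : Finset (DSub V)) (s : DSub V → Dl V) (hF : F ∉ N)
    (hs : ∀ X ∈ N, X = Submodule.span (ZMod 2) {s X})
    (hmin : ∀ D' : Set (DSub V), D' ⊆ insert F (N : Set (DSub V)) →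
      D' ≠ insert F (N : Set (DSub V)) → sSupIndep D') (h3 : 3 ≤ N.card)
    (Y Y' : DSub V) (hY : Y ∈ N) (hY' : Y' ∈ N) (hne : Y ≠ Y') : s Y + s Y' ∉ F := by
  classical
  intro hmem
  have hsub : ({Y, Y'} : Finset (DSub V)) ⊆ N := by
    intro X hX
    rw [Finset.mem_insert, Finset.mem_singleton] at hX
    rcases hX with rfl | rfl
    · exact hY
    · exact hY'
  have hF' : F ∉ ((({Y, Y'} : Finset (DSub V))) : Set (DSub V)) := fun h => hF (hsub h)
  have hind : sSupIndep (insert F ((({Y, Y'} : Finset (DSub V))) : Set (DSub V))) := by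
    apply hmin _ (Set.insert_subset_insert hsub)
    intro h
    have hEq : ({Y, Y'} : Finset (DSub V)) = N := by
      apply Finset.Subset.antisymm hsub
      intro X hX
      have h1 : X ∈ insert F ((({Y, Y'} : Finset (DSub V))) : Set (DSub V)) := by
        rw [h]; exact Set.mem_insert_of_mem F hX
      rcases h1 with h1 | h1
      · exact absurd (h1 ▸ hX) hF
      · exact h1
    rw [← hEq, Finset.card_pair hne] at h3
    omega
  have hd := b1a_disj hF' hind
  rw [Submodule.disjoint_def] at hd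
  have h1 : s Y + s Y' ∈ sSup ((({Y, Y'} : Finset (DSub V))) : Set (DSub V)) := by
    have h2 := b1a_mem_of_sub hsub s hs
    rwa [Finset.sum_pair hne] at h2
  have h2 := hd _ hmem h1
  have h4 : s Y = s Y' := add_eq_zero'.mp h2
  apply hne
  rw [hs Y hY, hs Y' hY', h4]

end

theorem t_B1A (hBEV : S_BEV) (hOM : S_OM) (hEXC : S_EXC) (hB1H : S_B1H) : S_B1A := by
  classical
  intro V _ _ _ e A F N hCB hF hN hdep hmin hdim hcard
  obtain ⟨d, hd1, hN2, hall, hn, hex⟩ := hEXC V e A F N hCB hF hN hdep hmin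
  have hFN : F ∉ N := fun h => hF.2 (hN h).2
  obtain ⟨Y₁, hY₁, Y₂, hY₂, hne⟩ := Finset.one_lt_card.mp (by omega : 1 < N.card)
  have hd : d = 1 := by
    rw [← hall Y₁ (hN hY₁)]
    exact hdim Y₁ hY₁
  subst hd
  have hgen : ∀ X : DSub V, ∃ s : Dl V, finrank (ZMod 2) X = 1 →
      s ≠ 0 ∧ X = Submodule.span (ZMod 2) {s} := by
    intro X
    by_cases h : finrank (ZMod 2) X = 1
    · obtain ⟨s, hs⟩ := b1a_gen h
      exact ⟨s, fun _ => hs⟩
    · exact ⟨0, fun h' => absurd h' h⟩
  choose s hs using hgen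
  have hsN : ∀ X ∈ N, X = Submodule.span (ZMod 2) {s X} := fun X hX => (hs X (hdim X hX)).2
  have hsum : ∑ X ∈ N, s X ∈ F := b1a_circ N s hFN hsN hdep hmin
  have hpair := b1a_pair N s hFN hsN hmin hcard
  have hGB : ∀ X ∈ GB e A, X ∈ N := by
    intro X hX
    by_contra hXN
    have step : ∀ Y ∈ N, s X + s Y ∈ F := by
      intro Y hY
      obtain ⟨h1, h2⟩ := hex X hX hXN Y hY
      have hcoe : ((insert X (N.erase Y) : Finset (DSub V)) : Set (DSub V)) =
          insert X ((N : Set (DSub V)) \ {Y}) := by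
        rw [Finset.coe_insert, Finset.coe_erase]
      rw [← hcoe] at h1 h2
      have hXe : X ∉ N.erase Y := fun h => hXN (Finset.mem_of_mem_erase h)
      have hF2 : F ∉ insert X (N.erase Y) := by
        rw [Finset.mem_insert]
        rintro (h | h)
        · exact hF.2 (h ▸ hX.2)
        · exact hFN (Finset.mem_of_mem_erase h)
      have hs2 : ∀ Z ∈ insert X (N.erase Y), Z = Submodule.span (ZMod 2) {s Z} := by
        intro Z hZ
        rcases Finset.mem_insert.mp hZ with rfl | hZ
        · exact (hs Z (hall Z hX)).2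
        · exact hsN Z (Finset.mem_of_mem_erase hZ)
      have h3 := b1a_circ (insert X (N.erase Y)) s hF2 hs2 h1 h2
      rw [Finset.sum_insert hXe] at h3
      rw [← Finset.add_sum_erase N s hY] at hsum
      have h4 := Submodule.add_mem _ h3 hsum
      have h5 : s X + ∑ Z ∈ N.erase Y, s Z + (s Y + ∑ Z ∈ N.erase Y, s Z) =
          s X + s Y + (∑ Z ∈ N.erase Y, s Z + ∑ Z ∈ N.erase Y, s Z) := by abel
      rw [h5, vadd, add_zero] at h4
      exact h4
    apply hpair Y₁ Y₂ hY₁ hY₂ hne
    have h6 := Submodule.add_mem _ (step Y₁ hY₁) (step Y₂ hY₂)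
    have h7 : s X + s Y₁ + (s X + s Y₂) = s Y₁ + s Y₂ + (s X + s X) := by abel
    rw [h7, vadd, add_zero] at h6
    exact h6
  have hspan₁ : Submodule.span (ZMod 2) {s Y₁} ∈ N := by
    rw [← hsN Y₁ hY₁]; exact hY₁
  have hspan₂ : Submodule.span (ZMod 2) {s Y₂} ∈ N := by
    rw [← hsN Y₂ hY₂]; exact hY₂
  have hsne : s Y₁ ≠ s Y₂ := by
    intro h
    apply hne
    rw [hsN Y₁ hY₁, hsN Y₂ hY₂, h]
  obtain ⟨a, ha, hs1, hBLc, hBLg, himp⟩ := hB1H V e A F N (s Y₁) (s Y₂) hCB hF hN hdep hmin hdim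
    hspan₁ hspan₂ (hs Y₁ (hdim Y₁ hY₁)).1 (hs Y₂ (hdim Y₂ hY₂)).1 hsne
  have hsub : BL e A a ⊆ (N : Set (DSub V)) := by
    intro X hX
    exact hGB X ⟨hX.1, (hBLg X hX).1⟩
  obtain ⟨hloc, hF2⟩ := hBEV V e A hCB.mc F hF
  have hEq : BL e A a = (N : Set (DSub V)) := by
    apply Set.eq_of_subset_of_ncard_le hsub _ (Finset.finite_toSet N)
    rw [Set.ncard_coe_finset]
    omega
  have hkill : ∀ X ∈ N, X ≤ ann a := by
    intro X hX
    have h1 : X ∈ BL e A a := by rw [hEq]; exact hX
    exact h1.2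
  have hval := himp (fun X hX _ => hkill X hX)
  apply hpair Y₁ Y₂ hY₁ hY₂ hne
  rw [hval]
  have hsp : sp (om e A F) = F := (hOM V e A F hCB.mc.ef hloc).2.2.1
  have h8 : om e A F a ∈ sp (om e A F) := ⟨a, rfl⟩
  rw [hsp] at h8
  exact h8

end Pool.Agent.W392.ELG
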